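import Pool.Agent.Helper10.HB.Ff

set_option autoImplicit false
set_option linter.unusedSectionVars false

namespace Pool.Agent.Results.MP_181f73_al.NonHausdorff

universe u

section defs

variable (p : ℝ) {G : Type u} [Group G]

/-- `h` is a bounded 2-cochain of `G` with values in `ℓ^p(G)`: every `x ↦ h a b x` lies in
`ℓ^p(G)`, and the `p`-norms are bounded independently of `a` and `b`. -/
def Bounded2 (h : G → G → G → ℝ) : Prop :=
  (∀ a b, Summable fun x => |h a b x| ^ p) ∧ ∃ C : ℝ, ∀ a b, ∑' x, |h a b x| ^ p ≤ C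

/-- `f` is a bounded 3-cochain of `G` with values in `ℓ^p(G)`. -/
def Bounded3 (f : G → G → G → G → ℝ) : Prop :=
  (∀ a b c, Summable fun x => |f a b c x| ^ p) ∧ ∃ C : ℝ, ∀ a b c, ∑' x, |f a b c x| ^ p ≤ C

/-- `f` is a 3-cocycle: its (inhomogeneous) coboundary, for the left regular action
`(g · v) x = v (g⁻¹ x)`, vanishes -/
def Cocycle3 (f : G → G → G → G → ℝ) : Prop := ∀ g₁ g₂ g₃ g₄ x : G,
  f g₂ g₃ g₄ (g₁⁻¹ * x) - f (g₁ * g₂) g₃ g₄ x + f g₁ (g₂ * g₃) g₄ x
    - f g₁ g₂ (g₃ * g₄) x + f g₁ g₂ g₃ x = 0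

/-- `f` is the (inhomogeneous) coboundary of a bounded 2-cochain with values in `ℓ^p(G)` -/
def BddCoboundary (f : G → G → G → G → ℝ) : Prop :=
  ∃ h : G → G → G → ℝ, Bounded2 p h ∧ ∀ g₁ g₂ g₃ x : G, f g₁ g₂ g₃ x =
    h g₂ g₃ (g₁⁻¹ * x) - h (g₁ * g₂) g₃ x + h g₁ (g₂ * g₃) x - h g₁ g₂ x

/-- `f` is a limit, in the norm of bounded cochains, of coboundaries of bounded 2-cochains -/
def LimitOfCoboundaries (f : G → G → G → G → ℝ) : Prop :=
  ∀ ε : ℝ, 0 < ε → ∃ b : G → G → G → G → ℝ, BddCoboundary p b ∧ ∀ g₁ g₂ g₃ : G,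
    (Summable fun x => |f g₁ g₂ g₃ x - b g₁ g₂ g₃ x| ^ p) ∧
    ∑' x, |f g₁ g₂ g₃ x - b g₁ g₂ g₃ x| ^ p ≤ ε

end defs

variable (p : ℝ) (hp : 1 ≤ p)

/-! ### the weights -/

open Pool.Agent.Helper10.HB Filter Topology

/-- the weights belonging to a sequence -/
noncomputable def wt (t : ℕ → ℝ) : ℕ → ℝ := fun n => (1 / 4 : ℝ) ^ ((n : ℝ) / p) * t n

include hp in
lemma wt_pow (t : ℕ → ℝ) (n : ℕ) : |wt p t n| ^ p = (1 / 4 : ℝ) ^ n * |t n| ^ p := by
  unfold wt
  rw [abs_mul, Real.mul_rpow (abs_nonneg _) (abs_nonneg _), abs_of_nonneg (by positivity),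
    ← Real.rpow_mul (by norm_num), div_mul_cancel₀ _ (by linarith : p ≠ 0), Real.rpow_natCast]

lemma wt_add (t t' : ℕ → ℝ) : wt p (t + t') = wt p t + wt p t' := by
  funext n
  simp only [wt, Pi.add_apply]
  ring

lemma wt_smul (c : ℝ) (t : ℕ → ℝ) : wt p (c • t) = c • wt p t := by
  funext n
  simp only [wt, Pi.smul_apply, smul_eq_mul]
  ring

include hp in
lemma Wb_wt (t : ℕ → ℝ) (M : ℝ) (hM : 0 ≤ M) (ht : ∀ n, |t n| ^ p ≤ M) : Wb (wt p t) p M := by
  refine ⟨hM, fun J => ?_⟩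
  rw [wt_pow p hp, mul_comm]
  exact mul_le_mul_of_nonneg_right (ht J) (by positivity)

include hp in
lemma four_wt (t : ℕ → ℝ) (j : ℕ) : (4 : ℝ) ^ j * |wt p t j| ^ p = |t j| ^ p := by
  rw [wt_pow p hp, ← mul_assoc, ← mul_pow]
  norm_num

include hp in
lemma Ws_wt (t : ℕ → ℝ) (ht : Summable fun n => |t n| ^ p) :
    Ws (wt p t) p (∑' n, |t n| ^ p) := by
  intro N
  rw [Finset.sum_congr rfl fun j _ => four_wt p hp t j]
  exact ht.sum_le_tsum _ (fun j _ => by positivity)

include hp in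
lemma summable_of_wt (t : ℕ → ℝ)
    (h : Summable (fun j : ℕ => (4 : ℝ) ^ j * |wt p t (j + 1)| ^ p)) :
    Summable fun n => |t n| ^ p := by
  rw [← summable_nat_add_iff 1]
  refine (h.mul_left 4).congr fun j => ?_
  rw [← four_wt p hp t (j + 1)]
  ring

/-! ### the map -/

section map

variable (α : Type u) [TwoLetters α] [DecidableEq α]

/-- the linear map from sequences to cochains -/
noncomputable def Phi (t : ℕ → ℝ) :
    FreeGroup α → FreeGroup α → FreeGroup α → FreeGroup α → ℝ :=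
  fun a b c x => ff (wt p t) a b c x

lemma Phi_add (t t' : ℕ → ℝ) (a b c x : FreeGroup α) :
    Phi p α (t + t') a b c x = Phi p α t a b c x + Phi p α t' a b c x := by
  unfold Phi
  rw [wt_add, ff_add]

lemma Phi_smul (r : ℝ) (t : ℕ → ℝ) (a b c x : FreeGroup α) :
    Phi p α (r • t) a b c x = r * Phi p α t a b c x := by
  unfold Phi
  rw [wt_smul, ff_smul]

lemma Phi_lin (r s : ℝ) (t t' : ℕ → ℝ) (a b c x : FreeGroup α) :
    Phi p α (fun n => r * t n + s * t' n) a b c x =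
      r * Phi p α t a b c x + s * Phi p α t' a b c x := by
  have h : (fun n => r * t n + s * t' n) = r • t + s • t' := by
    funext n
    simp
  rw [h, Phi_add, Phi_smul, Phi_smul]

include hp in
lemma pow_bound {t : ℕ → ℝ} {M : ℝ} (ht : ∀ n, |t n| ≤ M) :
    0 ≤ M ^ p ∧ ∀ n, |t n| ^ p ≤ M ^ p := by
  have hM : 0 ≤ M := (abs_nonneg _).trans (ht 0)
  exact ⟨by positivity, fun n => Real.rpow_le_rpow (abs_nonneg _) (ht n) (by linarith)⟩

include hp in
lemma Phi_bounded {t : ℕ → ℝ} {M : ℝ} (ht : ∀ n, |t n| ≤ M) : Bounded3 p (Phi p α t) := by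
  obtain ⟨h1, h2⟩ := pow_bound p hp ht
  have hw := Wb_wt p hp t _ h1 h2
  exact ⟨fun a b c => summable_ff _ p _ hp hw a b c, _, fun a b c => tsum_ff_le _ p _ hp hw a b c⟩

lemma Phi_cocycle (t : ℕ → ℝ) : Cocycle3 (Phi p α t) :=
  fun g₁ g₂ g₃ g₄ x => ff_cocycle _ g₁ g₂ g₃ g₄ x

include hp in
lemma Phi_cob_of_summable {t : ℕ → ℝ} (ht : Summable fun n => |t n| ^ p) :
    BddCoboundary p (Phi p α t) := by
  have hw := Ws_wt p hp t ht
  exact ⟨hh (wt p t), ⟨fun a b => summable_hh _ p _ hp hw a b, _,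
    fun a b => tsum_hh_le _ p _ hp hw a b⟩, fun g₁ g₂ g₃ x => ff_eq _ g₁ g₂ g₃ x⟩

include hp in
lemma summable_of_Phi_cob {t : ℕ → ℝ} (h : BddCoboundary p (Phi p α t)) :
    Summable fun n => |t n| ^ p := by
  obtain ⟨k, ⟨hk1, C, hC⟩, hk⟩ := h
  exact summable_of_wt p hp t (weights_of_primitive (wt p t) p hp k C hk1 hC hk)

include hp in
lemma Phi_limit {t : ℕ → ℝ} (ht : Tendsto t atTop (𝓝 0)) :
    LimitOfCoboundaries p (Phi p α t) := by
  intro ε hε
  have hp0 : 0 < p := by linarith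
  set c : ℝ := 3 ^ p * (3 * (2 ^ p * (8 / 3))) with hc
  have hc0 : 0 < c := by positivity
  have hKK : ∀ δ, KK p δ = c * δ := fun δ => by unfold KK; rw [hc]; ring
  set δ := ε / (4 * c) with hδ
  have hδ0 : 0 < δ := by positivity
  have ht2 : Tendsto (fun n => |t n| ^ p) atTop (𝓝 0) := by
    have h1 := (ht.abs).rpow_const (p := p) (Or.inr hp0.le)
    simpa [Real.zero_rpow hp0.ne'] using h1
  obtain ⟨n0, hn0⟩ := eventually_atTop.1 (ht2.eventually (gt_mem_nhds hδ0))
  set t1 : ℕ → ℝ := fun n => if n < n0 then t n else 0 with ht1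
  refine ⟨Phi p α t1, Phi_cob_of_summable p hp α ?_, fun g₁ g₂ g₃ => ?_⟩
  · refine summable_of_ne_finset_zero (s := Finset.range n0) fun n hn => ?_
    rw [Finset.mem_range] at hn
    simp only [ht1, if_neg hn, abs_zero, Real.zero_rpow hp0.ne']
  · have hw : Wb (wt p (t - t1)) p δ := by
      refine Wb_wt p hp _ δ hδ0.le fun n => ?_
      simp only [Pi.sub_apply, ht1]
      split_ifs with h
      · rw [sub_self, abs_zero, Real.zero_rpow hp0.ne']; exact hδ0.le
      · rw [sub_zero]; exact (hn0 n (by omega)).le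
    have e : ∀ x, Phi p α t g₁ g₂ g₃ x - Phi p α t1 g₁ g₂ g₃ x =
        ff (wt p (t - t1)) g₁ g₂ g₃ x := by
      intro x
      have h := Phi_add p α (t - t1) t1 g₁ g₂ g₃ x
      rw [sub_add_cancel] at h
      rw [h]
      unfold Phi
      ring
    simp only [e]
    refine ⟨summable_ff _ p _ hp hw g₁ g₂ g₃, (tsum_ff_le _ p _ hp hw g₁ g₂ g₃).trans ?_⟩
    rw [hKK, hδ]
    apply le_of_eq
    field_simp

end map

/-! ### continuum many independent classes -/

/-- the test sequences -/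
noncomputable def ts (s : ℝ) : ℕ → ℝ := fun n => ((n : ℝ) + 1) ^ (-(s / p))

include hp in
lemma ts_tendsto (s : ℝ) (hs : 0 < s) : Tendsto (ts p s) atTop (𝓝 0) := by
  have h1 := tendsto_rpow_neg_atTop (y := s / p) (by positivity)
  have h2 : Tendsto (fun n : ℕ => (n : ℝ) + 1) atTop atTop :=
    tendsto_atTop_add_const_right _ _ tendsto_natCast_atTop_atTop
  exact h1.comp h2

lemma ts_abs_le (hp : 1 ≤ p) (s : ℝ) (hs : 0 < s) (n : ℕ) : |ts p s n| ≤ 1 := by
  unfold ts
  rw [abs_of_nonneg (by positivity)]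
  exact Real.rpow_le_one_of_one_le_of_nonpos (by linarith [Nat.cast_nonneg (α := ℝ) n])
    (by have : 0 < s / p := by positivity
        linarith)

include hp in
lemma ts_not_summable (S : Finset ℝ) (g : ℝ → ℝ) (hS : ∀ s ∈ S, 0 < s ∧ s < 1)
    (hg : ∃ s ∈ S, g s ≠ 0) : ¬ Summable fun n => |(∑ s ∈ S, g s • ts p s) n| ^ p := by
  have hp0 : 0 < p := by linarith
  classical
  set S' := S.filter fun s => g s ≠ 0 with hS'
  have hne : S'.Nonempty := by
    obtain ⟨s, hs, hs'⟩ := hg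
    exact ⟨s, Finset.mem_filter.2 ⟨hs, hs'⟩⟩
  set m := S'.min' hne with hm
  have hmS : m ∈ S' := S'.min'_mem hne
  have hmS' := Finset.mem_filter.1 hmS
  obtain ⟨hm0, hm1⟩ := hS m hmS'.1
  have hgm := hmS'.2
  have e1 : ∀ n : ℕ, (∑ s ∈ S, g s • ts p s) n =
      ((n : ℝ) + 1) ^ (-(m / p)) * (g m + ∑ s ∈ S'.erase m, g s * ((n : ℝ) + 1) ^ (-((s - m) / p))) := by
    intro n
    have hn : (0 : ℝ) < (n : ℝ) + 1 := by positivity
    rw [Finset.sum_apply]
    have h1 : ∑ s ∈ S, (g s • ts p s) n = ∑ s ∈ S', (g s • ts p s) n := by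
      rw [hS', Finset.sum_filter]
      refine Finset.sum_congr rfl fun s _ => ?_
      split_ifs with h
      · rfl
      · simp only [Pi.smul_apply, smul_eq_mul]
        rw [not_ne_iff.1 h, zero_mul]
    rw [h1, ← Finset.add_sum_erase _ _ hmS, mul_add, Finset.mul_sum]
    congr 1
    · simp only [Pi.smul_apply, smul_eq_mul, ts]; ring
    · refine Finset.sum_congr rfl fun s _ => ?_
      simp only [Pi.smul_apply, smul_eq_mul, ts]
      have h2 : -(s / p) = -(m / p) + -((s - m) / p) := by ring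
      rw [h2, Real.rpow_add hn]
      ring
  have hlim : Tendsto (fun n : ℕ => g m + ∑ s ∈ S'.erase m, g s * ((n : ℝ) + 1) ^ (-((s - m) / p)))
      atTop (𝓝 (g m)) := by
    have h1 : Tendsto (fun n : ℕ => ∑ s ∈ S'.erase m, g s * ((n : ℝ) + 1) ^ (-((s - m) / p)))
        atTop (𝓝 (∑ s ∈ S'.erase m, g s * 0)) := by
      refine tendsto_finsetSum _ fun s hs => ?_
      rw [Finset.mem_erase] at hs
      have hlt : m < s := lt_of_le_of_ne (S'.min'_le s hs.2) (Ne.symm hs.1)
      have h2 := tendsto_rpow_neg_atTop (y := (s - m) / p) (div_pos (by linarith) hp0)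
      have h3 : Tendsto (fun n : ℕ => (n : ℝ) + 1) atTop atTop :=
        tendsto_atTop_add_const_right _ _ tendsto_natCast_atTop_atTop
      exact (h2.comp h3).const_mul _
    simp only [mul_zero, Finset.sum_const_zero] at h1
    simpa using h1.const_add (g m)
  have habs := hlim.abs
  have hpos : |g m| / 2 < |g m| := by
    have : 0 < |g m| := abs_pos.2 hgm
    linarith
  obtain ⟨N, hN⟩ := eventually_atTop.1 (habs.eventually (lt_mem_nhds hpos))
  intro hsum
  have hsum2 : Summable fun n : ℕ => (|g m| / 2) ^ p * (1 / ((n + N : ℕ) + 1 : ℝ) ^ m) := by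
    refine Summable.of_nonneg_of_le (fun n => by positivity) (fun n => ?_)
      ((summable_nat_add_iff N).2 hsum)
    rw [e1, abs_mul, Real.mul_rpow (abs_nonneg _) (abs_nonneg _), mul_comm]
    have hn : (0 : ℝ) < ((n + N : ℕ) : ℝ) + 1 := by positivity
    have h5 : |(((n + N : ℕ) : ℝ) + 1) ^ (-(m / p))| ^ p = 1 / (((n + N : ℕ) : ℝ) + 1) ^ m := by
      rw [abs_of_nonneg (by positivity), ← Real.rpow_mul hn.le, neg_mul,
        div_mul_cancel₀ _ hp0.ne', Real.rpow_neg hn.le, one_div]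
    rw [h5]
    refine mul_le_mul_of_nonneg_left ?_ (by positivity)
    exact Real.rpow_le_rpow (by positivity) (hN (n + N) (by omega)).le hp0.le
  have hk : (0 : ℝ) < (|g m| / 2) ^ p := by
    have : 0 < |g m| := abs_pos.2 hgm
    positivity
  rw [summable_mul_left_iff hk.ne'] at hsum2
  have h7 : Summable fun n : ℕ => 1 / (n : ℝ) ^ m := by
    rw [← summable_nat_add_iff (N + 1)]
    refine hsum2.congr fun n => ?_
    push_cast
    rw [add_assoc]
  rw [Real.summable_one_div_nat_rpow] at h7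
  linarith


lemma phi_sum (α : Type u) [TwoLetters α] [DecidableEq α] (S : Finset ℝ) (g : ℝ → ℝ)
    (g₁ g₂ g₃ x : FreeGroup α) : (∑ s ∈ S, g s * Phi p α (ts p s) g₁ g₂ g₃ x) =
      Phi p α (∑ s ∈ S, g s • ts p s) g₁ g₂ g₃ x := by
  classical
  induction S using Finset.induction_on with
  | empty =>
    rw [Finset.sum_empty, Finset.sum_empty]
    have := Phi_smul p α 0 0 g₁ g₂ g₃ x
    rw [zero_smul, zero_mul] at this
    exact this.symm
  | insert s S hs ih =>
    rw [Finset.sum_insert hs, Finset.sum_insert hs, Phi_add, Phi_smul, ih]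

/-- The cocycles of the sequences `(n+1)^(-s/p)`, `0 < s < 1`, are limits of coboundaries and have
linearly independent classes (a consequence of the properties of the map of the main result). -/
theorem continuum_many (p : ℝ) (hp : 1 ≤ p) (α : Type u) [Nontrivial α] :
    ∃ c : ℝ → FreeGroup α → FreeGroup α → FreeGroup α → FreeGroup α → ℝ,
      (∀ s : ℝ, 0 < s → s < 1 →
        Bounded3 p (c s) ∧ Cocycle3 (c s) ∧ LimitOfCoboundaries p (c s)) ∧
      ∀ (S : Finset ℝ) (g : ℝ → ℝ), (∀ s ∈ S, 0 < s ∧ s < 1) →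
        BddCoboundary p (fun g₁ g₂ g₃ x => ∑ s ∈ S, g s * c s g₁ g₂ g₃ x) →
        ∀ s ∈ S, g s = 0 := by
  classical
  obtain ⟨a, b, hab⟩ := exists_pair_ne α
  let _ : TwoLetters α := ⟨a, b, hab⟩
  refine ⟨fun s => Phi p α (ts p s), fun s hs0 _ => ⟨Phi_bounded p hp α (ts_abs_le p hp s hs0),
      Phi_cocycle p α _, Phi_limit p hp α (ts_tendsto p hp s hs0)⟩, ?_⟩
  intro S g hS hc
  by_contra hne
  push Not at hne
  obtain ⟨i, hi, hgi⟩ := hne
  have h3 : BddCoboundary p (Phi p α (∑ s ∈ S, g s • ts p s)) := by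
    obtain ⟨k, hk, hk'⟩ := hc
    exact ⟨k, hk, fun g₁ g₂ g₃ x => by rw [← phi_sum]; exact hk' g₁ g₂ g₃ x⟩
  exact ts_not_summable p hp S g hS ⟨i, hi, hgi⟩ (summable_of_Phi_cob p hp α h3)

/-- **Main result.** Let `p ≥ 1` be any real exponent and let `F` be any free group of rank at
least two. There is a linear map from real sequences to 3-cochains which sends bounded sequences
to bounded 3-cocycles with values in `ℓ^p(F)`; the cocycle of a bounded sequence is the coboundary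
of a bounded 2-cochain exactly if the sequence is in `ℓ^p(ℕ)`, and the cocycle of a null sequence
is a limit of such coboundaries. So `ℓ^∞/ℓ^p` embeds into the third bounded cohomology of `F` with
coefficients in `ℓ^p(F)`, which is therefore not zero, and, as there are null sequences outside
`ℓ^p`, the space of coboundaries is not closed. -/
theorem result (p : ℝ) (hp : 1 ≤ p) (α : Type u) [Nontrivial α] :
    ∃ Φ : (ℕ → ℝ) → FreeGroup α → FreeGroup α → FreeGroup α → FreeGroup α → ℝ,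
      (∀ (r s : ℝ) (t t' : ℕ → ℝ) (a b c x : FreeGroup α),
        Φ (fun n => r * t n + s * t' n) a b c x = r * Φ t a b c x + s * Φ t' a b c x) ∧
      (∀ t : ℕ → ℝ, (∃ M : ℝ, ∀ n, |t n| ≤ M) →
        Bounded3 p (Φ t) ∧ Cocycle3 (Φ t) ∧
        (BddCoboundary p (Φ t) ↔ Summable fun n => |t n| ^ p)) ∧
      ∀ t : ℕ → ℝ, Tendsto t atTop (𝓝 0) → LimitOfCoboundaries p (Φ t) := by
  classical
  obtain ⟨a, b, hab⟩ := exists_pair_ne α
  let _ : TwoLetters α := ⟨a, b, hab⟩
  exact ⟨Phi p α, Phi_lin p α, fun t ⟨M, ht⟩ => ⟨Phi_bounded p hp α ht, Phi_cocycle p α t,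
    summable_of_Phi_cob p hp α, Phi_cob_of_summable p hp α⟩, fun t ht => Phi_limit p hp α ht⟩

end Pool.Agent.Results.MP_181f73_al.NonHausdorff
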